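import Mathlib

namespace Pool.Agent.Results.MP_b9311c_al.CSA

/-- The subgroup `A` is abelian. -/
def IsAb {G : Type} [Group G] (A : Subgroup G) : Prop := ∀ x ∈ A, ∀ y ∈ A, x * y = y * x

/-- Every maximal abelian subgroup is malnormal. -/
def IsCSA (G : Type) [Group G] : Prop :=
  ∀ A : Subgroup G, Maximal IsAb A → ∀ g, g ∉ A → ∀ x ∈ A, g * x * g⁻¹ ∈ A → x = 1

instance : Fact (Nat.Prime 5) := ⟨by norm_num⟩

abbrev Z := ℤ_[5]
abbrev V := Z × Z × Z × Z

section
variable {R : Type} [CommRing R]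
def qm (x y : R × R × R × R) : R × R × R × R :=
  (x.1 * y.1 - 3 * x.2.1 * y.2.1 + 5 * x.2.2.1 * y.2.2.1 + 15 * x.2.2.2 * y.2.2.2,
   x.1 * y.2.1 + x.2.1 * y.1 - 5 * x.2.2.1 * y.2.2.2 + 5 * x.2.2.2 * y.2.2.1,
   x.1 * y.2.2.1 + x.2.2.1 * y.1 - 3 * x.2.1 * y.2.2.2 + 3 * x.2.2.2 * y.2.1,
   x.1 * y.2.2.2 + x.2.2.2 * y.1 + x.2.1 * y.2.2.1 - x.2.2.1 * y.2.1)
def qc (x : R × R × R × R) : R × R × R × R := (x.1, -x.2.1, -x.2.2.1, -x.2.2.2)
def nm (x : R × R × R × R) : R := x.1 ^ 2 + 3 * x.2.1 ^ 2 - 5 * x.2.2.1 ^ 2 - 15 * x.2.2.2 ^ 2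
end

noncomputable def red (x : V) : ZMod 5 × ZMod 5 × ZMod 5 × ZMod 5 :=
  (PadicInt.toZMod x.1, PadicInt.toZMod x.2.1, PadicInt.toZMod x.2.2.1, PadicInt.toZMod x.2.2.2)

def Good (y : ZMod 5 × ZMod 5 × ZMod 5 × ZMod 5) : Prop :=
  (y.1 = 1 ∧ y.2.1 = 0) ∨ (y.1 = 2 ∧ y.2.1 = 3) ∨ (y.1 = 2 ∧ y.2.1 = 2)

instance : DecidablePred Good := fun y => by unfold Good; infer_instance

theorem red_qm (x y : V) : red (qm x y) = qm (red x) (red y) := by
  simp [red, qm, map_ofNat]

theorem red_qc (x : V) : red (qc x) = qc (red x) := by simp [red, qc]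

theorem good_qm {x y : ZMod 5 × ZMod 5 × ZMod 5 × ZMod 5} (hx : Good x) (hy : Good y) :
    Good (qm x y) := by
  have h5 : (5 : ZMod 5) = 0 := by decide
  have h15 : (15 : ZMod 5) = 0 := by decide
  simp only [Good, qm, h5, h15, zero_mul, add_zero, sub_zero] at *
  rcases hx with ⟨a, b⟩ | ⟨a, b⟩ | ⟨a, b⟩ <;> rcases hy with ⟨c, d⟩ | ⟨c, d⟩ | ⟨c, d⟩ <;>
    rw [a, b, c, d] <;> decide

theorem good_qc {x : ZMod 5 × ZMod 5 × ZMod 5 × ZMod 5} (hx : Good x) : Good (qc x) := by
  simp only [Good, qc] at *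
  rcases hx with ⟨a, b⟩ | ⟨a, b⟩ | ⟨a, b⟩ <;> rw [a, b] <;> decide

def G : Type := {x : V // nm x = 1 ∧ Good (red x)}

noncomputable instance : Mul G := ⟨fun x y => ⟨qm x.1 y.1, by
  have h1 := x.2.1
  have h2 := y.2.1
  simp only [nm, qm] at *
  linear_combination (y.1.1 ^ 2 + 3 * y.1.2.1 ^ 2 - 5 * y.1.2.2.1 ^ 2 - 15 * y.1.2.2.2 ^ 2) * h1 + h2,
  by rw [red_qm]; exact good_qm x.2.2 y.2.2⟩⟩
noncomputable instance : One G := ⟨⟨(1, 0, 0, 0), by simp [nm], by simp [red, Good]⟩⟩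
noncomputable instance : Inv G := ⟨fun x => ⟨qc x.1, by simpa [nm, qc] using x.2.1,
  by rw [red_qc]; exact good_qc x.2.2⟩⟩

theorem mul_val (x y : G) : (x * y).1 = qm x.1 y.1 := rfl
theorem one_val : (1 : G).1 = (1, 0, 0, 0) := rfl
theorem inv_val (x : G) : (x⁻¹).1 = qc x.1 := rfl

noncomputable instance : Group G := Group.ofLeftAxioms
  (fun x y z => Subtype.ext (by simp only [mul_val, qm]; ext <;> simp only <;> ring))
  (fun x => Subtype.ext (by simp [mul_val, one_val, qm]))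
  (fun x => Subtype.ext (by
    have h1 := x.2.1
    simp only [mul_val, inv_val, one_val, qm, qc, nm] at *
    ext <;> simp only
    · linear_combination h1
    all_goals ring))

instance : TopologicalSpace G := inferInstanceAs (TopologicalSpace {x : V // nm x = 1 ∧ Good (red x)})
instance : T2Space G := inferInstanceAs (T2Space {x : V // nm x = 1 ∧ Good (red x)})
instance : TotallyDisconnectedSpace G :=
  inferInstanceAs (TotallyDisconnectedSpace {x : V // nm x = 1 ∧ Good (red x)})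

theorem cval : Continuous (fun x : G => x.1) := continuous_subtype_val

instance : IsTopologicalGroup G where
  continuous_mul := by
    refine Continuous.subtype_mk ?_ _
    have h1 : Continuous (fun p : G × G => p.1.1) := cval.comp continuous_fst
    have h2 : Continuous (fun p : G × G => p.2.1) := cval.comp continuous_snd
    unfold qm
    fun_prop
  continuous_inv := by
    refine Continuous.subtype_mk ?_ _
    have h1 := cval
    unfold qc
    fun_prop

theorem lc : IsLocallyConstant (PadicInt.toZMod : Z → ZMod 5) := by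
  rw [IsLocallyConstant.iff_exists_open]
  intro x
  refine ⟨Metric.ball x 1, Metric.isOpen_ball, Metric.mem_ball_self one_pos, fun y hy => ?_⟩
  rw [← sub_eq_zero, ← map_sub, ← RingHom.mem_ker, PadicInt.ker_toZMod,
    IsLocalRing.mem_maximalIdeal, PadicInt.mem_nonunits]
  rwa [Metric.mem_ball, dist_eq_norm] at hy

theorem lc_red : IsLocallyConstant red :=
  (lc.comp_continuous continuous_fst).prodMk ((lc.comp_continuous (by fun_prop)).prodMk
    ((lc.comp_continuous (by fun_prop)).prodMk (lc.comp_continuous (by fun_prop))))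

instance : CompactSpace G := by
  have : IsClosed {x : V | nm x = 1 ∧ Good (red x)} := by
    refine IsClosed.inter (isClosed_eq (by unfold nm; fun_prop) continuous_const) ?_
    exact ⟨lc_red {y | Good y}ᶜ⟩
  exact isCompact_iff_compactSpace.mp this.isCompact

theorem dvd_of_red {a : Z} (h : PadicInt.toZMod a = 0) : ∃ b, a = 5 * b := by
  rw [← RingHom.mem_ker, PadicInt.ker_toZMod, PadicInt.maximalIdeal_eq_span_p,
    Ideal.mem_span_singleton] at h
  exact h

theorem half {a b c : Z} (h : a ^ 2 + 3 * b ^ 2 = 5 * c) : ∃ a' b', a = 5 * a' ∧ b = 5 * b' := by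
  have := congrArg PadicInt.toZMod h
  simp only [map_add, map_mul, map_pow, map_ofNat] at this
  have key : ∀ x y z : ZMod 5, x ^ 2 + 3 * y ^ 2 = 5 * z → x = 0 ∧ y = 0 := by decide
  obtain ⟨h1, h2⟩ := key _ _ _ this
  obtain ⟨a', ha⟩ := dvd_of_red h1
  obtain ⟨b', hb⟩ := dvd_of_red h2
  exact ⟨a', b', ha, hb⟩

theorem aniso {x : V} (h : nm x = 0) : x = 0 := by
  have h5 : (5 : Z) ≠ 0 := by exact_mod_cast (by norm_num : (5 : ℕ) ≠ 0)
  have step : ∀ x : V, nm x = 0 → ∃ y : V, nm y = 0 ∧ x = (5 : Z) • y := by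
    rintro ⟨a, b, c, d⟩ h
    simp only [nm] at h
    obtain ⟨a, b, rfl, rfl⟩ := half (a := a) (b := b) (c := c ^ 2 + 3 * d ^ 2)
      (by linear_combination h)
    obtain ⟨c, d, rfl, rfl⟩ := half (a := c) (b := d) (c := a ^ 2 + 3 * b ^ 2)
      (mul_left_cancel₀ h5 (by linear_combination -h))
    refine ⟨(a, b, c, d), ?_, by simp⟩
    apply mul_left_cancel₀ (mul_ne_zero h5 h5)
    simp only [nm]
    linear_combination h
  have all : ∀ n : ℕ, ∃ y : V, nm y = 0 ∧ x = (5 : Z) ^ n • y := by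
    intro n
    induction n with
    | zero => exact ⟨x, h, by simp⟩
    | succ n ih =>
      obtain ⟨y, hy, e⟩ := ih
      obtain ⟨z, hz, e'⟩ := step y hy
      exact ⟨z, hz, by rw [e, e', smul_smul, pow_succ]⟩
  have zero : ∀ a : Z, (∀ n : ℕ, (5 : Z) ^ n ∣ a) → a = 0 := by
    intro a ha
    by_contra h0
    have hi : Irreducible (5 : Z) := by exact_mod_cast PadicInt.irreducible_p (p := 5)
    obtain ⟨n, b, hb, e⟩ := WfDvdMonoid.max_power_factor h0 hi
    have := ha (n + 1)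
    rw [e, pow_succ] at this
    exact hb ((mul_dvd_mul_iff_left (pow_ne_zero n h5)).mp this)
  ext
  all_goals
    refine zero _ fun n => ?_
    obtain ⟨y, -, e⟩ := all n
    rw [e]
    exact ⟨_, rfl⟩

theorem comm_iff (x y : G) : x * y = y * x ↔ x.1.2.1 * y.1.2.2.1 = x.1.2.2.1 * y.1.2.1 ∧
    x.1.2.1 * y.1.2.2.2 = x.1.2.2.2 * y.1.2.1 ∧ x.1.2.2.1 * y.1.2.2.2 = x.1.2.2.2 * y.1.2.2.1 := by
  constructor
  · intro h
    have := congrArg Subtype.val h
    simp only [mul_val, qm, Prod.mk.injEq] at this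
    obtain ⟨-, h1, h2, h3⟩ := this
    refine ⟨mul_left_cancel₀ (a := 2) two_ne_zero (by linear_combination h3),
      mul_left_cancel₀ (a := 6) (by norm_num) (by linear_combination -h2),
      mul_left_cancel₀ (a := 10) (by norm_num) (by linear_combination -h1)⟩
  · rintro ⟨h1, h2, h3⟩
    apply Subtype.ext
    simp only [mul_val, qm, Prod.mk.injEq]
    exact ⟨by ring, by linear_combination -10 * h3, by linear_combination -6 * h2,
      by linear_combination 2 * h1⟩

theorem pure_ne {x : G} (hx : x ≠ 1) : x.1.2.1 ≠ 0 ∨ x.1.2.2.1 ≠ 0 ∨ x.1.2.2.2 ≠ 0 := by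
  by_contra h
  push Not at h
  obtain ⟨⟨a, b, c, d⟩, h1, h2⟩ := x
  obtain ⟨rfl, rfl, rfl⟩ : b = 0 ∧ c = 0 ∧ d = 0 := h
  have : a = 1 ∨ a = -1 := by
    simp only [nm] at h1
    exact mul_self_eq_one_iff.mp (by linear_combination h1)
  rcases this with rfl | rfl
  · exact hx rfl
  · simp only [Good, red, map_neg, map_one, map_zero] at h2
    revert h2; decide

theorem trans {x y z : G} (hx : x ≠ 1) (hy : x * y = y * x) (hz : x * z = z * x) :
    y * z = z * y := by
  rw [comm_iff] at *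
  obtain ⟨a1, a2, a3⟩ := hy
  obtain ⟨b1, b2, b3⟩ := hz
  rcases pure_ne hx with h | h | h
  · exact ⟨mul_left_cancel₀ h (by linear_combination y.1.2.1 * b1 - z.1.2.1 * a1),
      mul_left_cancel₀ h (by linear_combination y.1.2.1 * b2 - z.1.2.1 * a2),
      mul_left_cancel₀ h (by linear_combination y.1.2.2.1 * b2 - y.1.2.2.2 * b1 - z.1.2.1 * a3)⟩
  · exact ⟨mul_left_cancel₀ h (by linear_combination y.1.2.2.1 * b1 - z.1.2.2.1 * a1),
      mul_left_cancel₀ h (by linear_combination y.1.2.1 * b3 + y.1.2.2.2 * b1 - z.1.2.2.1 * a2),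
      mul_left_cancel₀ h (by linear_combination y.1.2.2.1 * b3 - z.1.2.2.1 * a3)⟩
  · exact ⟨mul_left_cancel₀ h (by
        linear_combination -y.1.2.1 * b3 + y.1.2.2.1 * b2 - z.1.2.2.2 * a1),
      mul_left_cancel₀ h (by linear_combination y.1.2.2.2 * b2 - z.1.2.2.2 * a2),
      mul_left_cancel₀ h (by linear_combination y.1.2.2.2 * b3 - z.1.2.2.2 * a3)⟩

theorem norm_step {x g w : G} (hx : x ≠ 1) (hw : w * g = g * x) (hc : x * w = w * x) :
    x * g = g * x := by
  have hre : w.1.1 = x.1.1 := by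
    have : w = g * x * g⁻¹ := by rw [← hw]; simp
    have h1 := g.2.1
    rw [this]
    simp only [mul_val, inv_val, qm, qc, nm] at h1 ⊢
    linear_combination x.1.1 * h1
  have n1 := x.2.1
  have n2 := w.2.1
  obtain ⟨c1, c2, c3⟩ := (comm_iff x w).mp hc
  have hw' := congrArg Subtype.val hw
  simp only [mul_val, qm, Prod.mk.injEq, nm] at hw' n1 n2
  obtain ⟨-, e1, e2, e3⟩ := hw'
  rw [hre] at e1 e2 e3 n2
  have hprod : nm ((0 : Z), w.1.2.1 - x.1.2.1, w.1.2.2.1 - x.1.2.2.1, w.1.2.2.2 - x.1.2.2.2) *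
      nm ((0 : Z), w.1.2.1 + x.1.2.1, w.1.2.2.1 + x.1.2.2.1, w.1.2.2.2 + x.1.2.2.2) = 0 := by
    simp only [nm]
    linear_combination (n2 - n1) * (3 * w.1.2.1 ^ 2 - 5 * w.1.2.2.1 ^ 2 - 15 * w.1.2.2.2 ^ 2
      - (3 * x.1.2.1 ^ 2 - 5 * x.1.2.2.1 ^ 2 - 15 * x.1.2.2.2 ^ 2))
      - 60 * (x.1.2.1 * w.1.2.2.1 - x.1.2.2.1 * w.1.2.1) * c1
      - 180 * (x.1.2.1 * w.1.2.2.2 - x.1.2.2.2 * w.1.2.1) * c2
      + 300 * (x.1.2.2.1 * w.1.2.2.2 - x.1.2.2.2 * w.1.2.2.1) * c3
  rcases mul_eq_zero.mp hprod with h | h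
  · have := aniso h
    simp only [Prod.mk_eq_zero, sub_eq_zero] at this
    have : w = x := Subtype.ext (Prod.ext hre (Prod.ext this.2.1 (Prod.ext this.2.2.1 this.2.2.2)))
    rwa [this] at hw
  · exfalso
    have := aniso h
    simp only [Prod.mk_eq_zero] at this
    obtain ⟨-, f1, f2, f3⟩ := this
    have hg : g.1.1 ≠ 0 := fun h0 => by
      have := g.2.2
      simp only [Good, red, h0, map_zero] at this
      revert this
      generalize PadicInt.toZMod g.1.2.1 = t
      revert t; decide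
    have h2 : 2 * g.1.1 ≠ 0 := mul_ne_zero two_ne_zero hg
    rcases pure_ne hx with h | h | h <;> apply h <;> apply mul_left_cancel₀ h2
    · linear_combination -e1 + g.1.1 * f1 - 5 * g.1.2.2.2 * f2 + 5 * g.1.2.2.1 * f3
    · linear_combination -e2 + g.1.1 * f2 - 3 * g.1.2.2.2 * f1 + 3 * g.1.2.1 * f3
    · linear_combination -e3 + g.1.1 * f3 + g.1.2.2.1 * f1 - g.1.2.1 * f2

theorem csa : IsCSA G := by
  intro A hA g hg x hx hgx
  by_contra hx1
  have h1 := norm_step (g := g) (w := g * x * g⁻¹) hx1 (by simp) (hA.1 x hx _ hgx)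
  have hC : IsAb (Subgroup.centralizer {x}) := fun y hy z hz =>
    trans hx1 (hy x rfl) (hz x rfl)
  have hle : A ≤ Subgroup.centralizer {x} := fun y hy z hz => by
    rw [hz]; exact hA.1 x hx y hy
  exact hg (hA.2 hC hle (fun z hz => by rw [hz]; exact h1))

theorem exists_half : ∃ h : Z, 2 * h = 1 ∧ PadicInt.toZMod h = 3 := by
  have : IsUnit (2 : Z) := by
    by_contra hu
    have h : (2 : Z) ∈ RingHom.ker (PadicInt.toZMod : Z →+* ZMod 5) := by
      rw [PadicInt.ker_toZMod]; exact hu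
    rw [RingHom.mem_ker, map_ofNat] at h
    revert h; decide
  obtain ⟨h, hh⟩ := this.exists_right_inv
  refine ⟨h, hh, ?_⟩
  have := congrArg PadicInt.toZMod hh
  rw [map_mul, map_ofNat, map_one] at this
  revert this
  generalize PadicInt.toZMod h = t
  revert t; decide

noncomputable def N : OpenNormalSubgroup G where
  carrier := {x | red x.1 = (1, 0, 0, 0)}
  mul_mem' := fun {x y} hx hy => by
    simp only [Set.mem_ofPred_eq] at *
    rw [mul_val, red_qm, hx, hy]; decide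
  one_mem' := by simp [one_val, red]
  inv_mem' := fun {x} hx => by
    simp only [Set.mem_ofPred_eq] at *
    rw [inv_val, red_qc, hx]; decide
  isOpen' := (lc_red {(1, 0, 0, 0)}).preimage cval
  isNormal' := ⟨fun x hx g => by
    have h1 : red x.1 = (1, 0, 0, 0) := hx
    have h2 : red (g * g⁻¹).1 = (1, 0, 0, 0) := by simp [one_val, red]
    show red (g * x * g⁻¹).1 = _
    rw [mul_val, red_qm] at h2
    have e : qm (red g.1) (1, 0, 0, 0) = red g.1 := by simp [qm]
    rw [mul_val, mul_val, red_qm, red_qm, h1, e, h2]⟩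

theorem result : ∃ (G : Type) (_ : Group G) (_ : TopologicalSpace G),
    IsTopologicalGroup G ∧ CompactSpace G ∧ T2Space G ∧ TotallyDisconnectedSpace G ∧
    (∃ a b : G, a * b ≠ b * a) ∧ IsCSA G ∧
    ∀ p : ℕ, p.Prime → ¬ ∀ N : OpenNormalSubgroup G, IsPGroup p (G ⧸ N.toSubgroup) := by
  obtain ⟨h, hh, hr⟩ := exists_half
  let a : G := ⟨(-h, h, 0, 0), by simp only [nm]; linear_combination (2 * h + 1) * hh, by
    simp only [Good, red, map_neg, hr]; decide⟩
  let b : G := ⟨(-3 * h, 0, -h, 0), by simp only [nm]; linear_combination (2 * h + 1) * hh, by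
    simp only [Good, red, map_neg, map_mul, map_ofNat, hr, map_zero]; decide⟩
  have ra : red a.1 = (2, 3, 0, 0) := by simp only [a, red, map_neg, hr, map_zero]; decide
  have rb : red b.1 = (1, 0, 2, 0) := by
    simp only [b, red, map_neg, map_mul, map_ofNat, hr, map_zero]; decide
  refine ⟨G, inferInstance, inferInstance, inferInstance, inferInstance, inferInstance,
    inferInstance, ⟨a, b, fun e => ?_⟩, csa, fun p hp hP => ?_⟩
  · have := congrArg (fun x : G => red x.1) e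
    simp only [mul_val, red_qm, ra, rb] at this
    revert this; decide
  have key : ∀ (x : G) (q : ℕ), q.Prime → x ^ q ∈ N.toSubgroup → x ∉ N.toSubgroup → q = p := by
    intro x q hq h1 h2
    obtain ⟨k, hk⟩ := hP N (QuotientGroup.mk x)
    by_contra hne
    have e1 : (QuotientGroup.mk x : G ⧸ N.toSubgroup) ^ q = 1 := by
      rw [← QuotientGroup.mk_pow, QuotientGroup.eq_one_iff]; exact h1
    have hc : Nat.Coprime q (p ^ k) := ((Nat.coprime_primes hq hp).mpr hne).pow_right k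
    have := pow_gcd_eq_one.mpr ⟨e1, hk⟩
    rw [hc, pow_one, QuotientGroup.eq_one_iff] at this
    exact h2 this
  have k1 := key a 3 (by norm_num) (by
    show red (a ^ 3).1 = _
    simp only [pow_succ, pow_zero, one_mul, mul_val, red_qm, ra]; decide) (by
    show ¬ red a.1 = _
    rw [ra]; decide)
  have k2 := key b 5 (by norm_num) (by
    show red (b ^ 5).1 = _
    simp only [pow_succ, pow_zero, one_mul, mul_val, red_qm, rb]; decide) (by
    show ¬ red b.1 = _
    rw [rb]; decide)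
  omega

end Pool.Agent.Results.MP_b9311c_al.CSA
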